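import Pool.Agent.helper84.ZD.SpecA

/-!
# Project zd, module STR: the strip lemma
-/

set_option autoImplicit false

open Complex MeasureTheory

namespace Pool.Agent.ZD

open Pool.Agent.helper84.DM Pool.Agent.helper78.ED Pool.Agent.DH

/-- The Poisson kernel in closed form. -/
theorem STR_pk (r θ : ℝ) (hr0 : 0 ≤ r) (hr1 : r < 1) :
    HasSum (fun j : ℤ => r ^ j.natAbs * Real.cos ((j : ℝ) * θ))
      ((1 - r ^ 2) / (1 - 2 * r * Real.cos θ + r ^ 2)) := by
  set z : ℂ := (r : ℂ) * Complex.exp ((θ : ℂ) * I) with hz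
  have hzn : ‖z‖ < 1 := by
    rw [hz, norm_mul, Complex.norm_exp_ofReal_mul_I, mul_one, Complex.norm_real, Real.norm_eq_abs,
      abs_of_nonneg hr0]
    exact hr1
  have hpow : ∀ n : ℕ, (z ^ n).re = r ^ n * Real.cos ((n : ℝ) * θ) := by
    intro n
    rw [hz, mul_pow, ← Complex.exp_nat_mul]
    have h1 : ((n : ℂ) * ((θ : ℂ) * I)) = (((n : ℝ) * θ : ℝ) : ℂ) * I := by push_cast; ring
    rw [h1, ← Complex.ofReal_pow, Complex.re_ofReal_mul, Complex.exp_ofReal_mul_I_re]
  have hg := hasSum_geometric_of_norm_lt_one hzn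
  have hg1 : HasSum (fun n : ℕ => (z ^ n).re) ((1 - z)⁻¹).re := Complex.hasSum_re hg
  have hg2 : HasSum (fun n : ℕ => (z ^ (n + 1)).re) (z * (1 - z)⁻¹).re := by
    have h := Complex.hasSum_re (hg.mul_left z)
    have e : (fun n : ℕ => (z ^ (n + 1)).re) = fun n : ℕ => (z * z ^ n).re := by
      funext n
      rw [pow_succ, mul_comm]
    rw [e]
    exact h
  have hne : (1 - z) ≠ 0 := by
    intro h
    have : z = 1 := by linear_combination -h
    rw [this] at hzn
    simp at hzn
  have hs : HasSum (fun j : ℤ => r ^ j.natAbs * Real.cos ((j : ℝ) * θ))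
      (((1 - z)⁻¹).re + (z * (1 - z)⁻¹).re) := by
    apply HasSum.of_nat_of_neg_add_one
    · have e : (fun n : ℕ => r ^ (n : ℤ).natAbs * Real.cos (((n : ℤ) : ℝ) * θ)) =
          fun n : ℕ => (z ^ n).re := by
        funext n
        rw [hpow n]
        simp
      rw [e]
      exact hg1
    · have e : (fun n : ℕ => r ^ (-((n : ℤ) + 1)).natAbs *
            Real.cos (((-((n : ℤ) + 1) : ℤ) : ℝ) * θ)) =
          fun n : ℕ => (z ^ (n + 1)).re := by
        funext n
        rw [hpow (n + 1)]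
        have h1 : (-((n : ℤ) + 1)).natAbs = n + 1 := by
          rw [Int.natAbs_neg]
          exact_mod_cast Int.natAbs_natCast (n + 1)
        have h2 : (((-((n : ℤ) + 1) : ℤ) : ℝ) * θ) = -(((n + 1 : ℕ) : ℝ) * θ) := by
          push_cast
          ring
        rw [h1, h2, Real.cos_neg]
      rw [e]
      exact hg2
  have hval : (1 - r ^ 2) / (1 - 2 * r * Real.cos θ + r ^ 2) =
      ((1 - z)⁻¹).re + (z * (1 - z)⁻¹).re := by
    have hzre : z.re = r * Real.cos θ := by
      have := hpow 1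
      simpa using this
    have hzim : z.im = r * Real.sin θ := by
      rw [hz, Complex.im_ofReal_mul, Complex.exp_ofReal_mul_I_im]
    have hnsq : Complex.normSq (1 - z) = 1 - 2 * r * Real.cos θ + r ^ 2 := by
      rw [Complex.normSq_apply, Complex.sub_re, Complex.sub_im, hzre, hzim, Complex.one_re,
        Complex.one_im]
      have := Real.sin_sq_add_cos_sq θ
      linear_combination r ^ 2 * this
    have hns0 : Complex.normSq (1 - z) ≠ 0 := by
      intro h
      exact hne (Complex.normSq_eq_zero.mp h)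
    rw [Complex.mul_re, Complex.inv_re, Complex.inv_im, Complex.sub_re, Complex.sub_im, hnsq, hzre,
      hzim, Complex.one_re, Complex.one_im]
    rw [hnsq] at hns0
    generalize 1 - 2 * r * Real.cos θ + r ^ 2 = D at hns0
    have h := Real.sin_sq_add_cos_sq θ
    have e : (1 - r * Real.cos θ) / D + (r * Real.cos θ * ((1 - r * Real.cos θ) / D) -
        r * Real.sin θ * (-(0 - r * Real.sin θ) / D)) =
        (1 - r ^ 2 * (Real.sin θ ^ 2 + Real.cos θ ^ 2)) / D := by
      field_simp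
      ring
    rw [e, h, mul_one]
  rw [hval]
  exact hs

/-- The Poisson kernel dominates `kap` at the distance to the nearest integer. -/
theorem STR_lower (X α β : ℝ) (n : ℤ) (hX : 1 ≤ X) (hβ : β = α - n) :
    X / 80 * kap (X * β) ≤ PK X α := by
  have hX0 : 0 < X := by linarith
  set r : ℝ := Real.exp (-(1 / X)) with hr
  have hr0 : 0 < r := Real.exp_pos _
  have hx1 : 0 < 1 / X := by positivity
  have hr1 : r < 1 := by
    rw [hr, Real.exp_lt_one_iff]
    linarith
  have hpk : PK X α = (1 - r ^ 2) / (1 - 2 * r * Real.cos (2 * Real.pi * α) + r ^ 2) := by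
    have h := STR_pk r (2 * Real.pi * α) hr0.le hr1
    rw [← h.tsum_eq]
    unfold PK
    congr 1
    funext j
    have h1 : Real.exp (-(|(j : ℝ)| / X)) = r ^ j.natAbs := by
      rw [hr, ← Real.exp_nat_mul, Nat.cast_natAbs, Int.cast_abs]
      congr 1
      ring
    have h2 : 2 * Real.pi * (j : ℝ) * α = (j : ℝ) * (2 * Real.pi * α) := by ring
    rw [h1, h2]
  have hcos : Real.cos (2 * Real.pi * α) = Real.cos (2 * Real.pi * β) := by
    rw [hβ]
    have h : 2 * Real.pi * (α - n) = 2 * Real.pi * α - n * (2 * Real.pi) := by ring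
    rw [h, Real.cos_sub_int_mul_two_pi]
  rw [hpk, hcos]
  have hle1 : 1 - r ≤ 1 / X := by
    have := Real.add_one_le_exp (-(1 / X))
    rw [← hr] at this
    linarith
  have hge1 : 1 / (2 * X) ≤ 1 - r := by
    have h1 := Real.add_one_le_exp (1 / X)
    have h2 : r = (Real.exp (1 / X))⁻¹ := by rw [hr, Real.exp_neg]
    have h3 : (Real.exp (1 / X))⁻¹ ≤ (1 / X + 1)⁻¹ := by
      apply inv_anti₀ (by positivity) h1
    rw [← h2] at h3
    have h4 : (1 / X + 1)⁻¹ = X / (1 + X) := by
      field_simp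
    rw [h4] at h3
    have h5 : 1 / (2 * X) ≤ 1 - X / (1 + X) := by
      have : 1 - X / (1 + X) = 1 / (1 + X) := by
        field_simp
        ring
      rw [this]
      apply one_div_le_one_div_of_le (by positivity)
      linarith
    linarith
  have hc := Real.one_sub_sq_div_two_le_cos (x := 2 * Real.pi * β)
  have hc1 := Real.cos_le_one (2 * Real.pi * β)
  have hpi : Real.pi ^ 2 < 10 := by
    have := Real.pi_lt_d2
    have h3 := Real.pi_pos
    nlinarith
  have hden_pos : 0 < 1 - 2 * r * Real.cos (2 * Real.pi * β) + r ^ 2 := by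
    nlinarith [mul_nonneg hr0.le (sub_nonneg.mpr hc1), sq_nonneg (1 - r), sub_pos.mpr hr1]
  have hden : 1 - 2 * r * Real.cos (2 * Real.pi * β) + r ^ 2 ≤ 40 * (1 + (X * β) ^ 2) / X ^ 2 := by
    have h1 : 1 - 2 * r * Real.cos (2 * Real.pi * β) + r ^ 2 =
        (1 - r) ^ 2 + 2 * r * (1 - Real.cos (2 * Real.pi * β)) := by ring
    rw [h1]
    have h2 : (1 - r) ^ 2 ≤ (1 / X) ^ 2 := by
      apply pow_le_pow_left₀ (by linarith) hle1
    have h3 : 2 * r * (1 - Real.cos (2 * Real.pi * β)) ≤ 40 * β ^ 2 := by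
      have h4 : 1 - Real.cos (2 * Real.pi * β) ≤ (2 * Real.pi * β) ^ 2 / 2 := by linarith
      have h5 : 2 * r * (1 - Real.cos (2 * Real.pi * β)) ≤
          2 * 1 * ((2 * Real.pi * β) ^ 2 / 2) := by
        apply mul_le_mul _ h4 (by linarith) (by norm_num)
        linarith
      have h6 : 2 * 1 * ((2 * Real.pi * β) ^ 2 / 2) = 4 * Real.pi ^ 2 * β ^ 2 := by ring
      rw [h6] at h5
      nlinarith [mul_nonneg (sub_nonneg.mpr hpi.le) (sq_nonneg β)]
    have h7 : 40 * (1 + (X * β) ^ 2) / X ^ 2 = 40 * (1 / X) ^ 2 + 40 * β ^ 2 := by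
      field_simp
    rw [h7]
    nlinarith [sq_nonneg (1 / X)]
  have hnum : 1 / (2 * X) ≤ 1 - r ^ 2 := by nlinarith
  have hk : X / 80 * kap (X * β) = (1 / (2 * X)) / (40 * (1 + (X * β) ^ 2) / X ^ 2) := by
    unfold kap
    field_simp
    norm_num
  rw [hk]
  apply div_le_div₀ (by nlinarith [hnum, (by positivity : 0 < 1 / (2 * X))]) hnum hden_pos hden

theorem STR_term (X β : ℝ) (k : ℤ) (hX : 1 ≤ X) (hβ : |β| ≤ 1 / 2) :
    kap (X * ((k : ℝ) + β)) ≤ 10 * kap (X * β) * (1 / (1 + (k : ℝ) ^ 2)) := by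
  unfold kap
  have hX0 : 0 < X := by linarith
  have h1 : 0 < 1 + (X * ((k : ℝ) + β)) ^ 2 := by positivity
  have h2 : 0 < 1 + (X * β) ^ 2 := by positivity
  have h3 : (0 : ℝ) < 1 + (k : ℝ) ^ 2 := by positivity
  have hb : β ^ 2 ≤ 1 / 4 := by
    have := sq_le_sq' (abs_le.mp hβ).1 (abs_le.mp hβ).2
    nlinarith
  have key : (1 + (X * β) ^ 2) * (1 + (k : ℝ) ^ 2) ≤ 10 * (1 + (X * ((k : ℝ) + β)) ^ 2) := by
    rcases eq_or_ne k 0 with rfl | hk
    · simp only [Int.cast_zero, zero_add]
      nlinarith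
    · have hk1 : (1 : ℝ) ≤ (k : ℝ) ^ 2 := by
        have : (1 : ℤ) ≤ k ^ 2 := by
          have := Int.one_le_abs hk
          nlinarith [abs_mul_abs_self k, abs_nonneg k]
        exact_mod_cast this
      have hkb : (k : ℝ) ^ 2 / 4 ≤ ((k : ℝ) + β) ^ 2 := by
        have ha : |(k : ℝ)| ≥ 1 := by
          have := Int.one_le_abs hk
          exact_mod_cast this
        have hab : |(k : ℝ)| / 2 ≤ |(k : ℝ) + β| := by
          have := abs_sub_abs_le_abs_sub (k : ℝ) (-β)
          rw [abs_neg, sub_neg_eq_add] at this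
          linarith
        have := pow_le_pow_left₀ (by positivity) hab 2
        rw [div_pow, sq_abs, sq_abs] at this
        linarith
      have hX2 : 1 ≤ X ^ 2 := by nlinarith
      have e1 : (X * β) ^ 2 = X ^ 2 * β ^ 2 := by ring
      have e2 : (X * ((k : ℝ) + β)) ^ 2 = X ^ 2 * ((k : ℝ) + β) ^ 2 := by ring
      rw [e1, e2]
      have h4 : 1 + X ^ 2 * β ^ 2 ≤ 5 / 4 * X ^ 2 := by nlinarith
      have h5 : 1 + (k : ℝ) ^ 2 ≤ 2 * (k : ℝ) ^ 2 := by linarith
      have h6 : (1 + X ^ 2 * β ^ 2) * (1 + (k : ℝ) ^ 2) ≤ (5 / 4 * X ^ 2) * (2 * (k : ℝ) ^ 2) :=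
        mul_le_mul h4 h5 h3.le (by positivity)
      have h7 : X ^ 2 * ((k : ℝ) ^ 2 / 4) ≤ X ^ 2 * ((k : ℝ) + β) ^ 2 :=
        mul_le_mul_of_nonneg_left hkb (by positivity)
      nlinarith
  rw [mul_one_div, mul_one_div, div_div, div_le_div_iff₀ h1 (by positivity)]
  linarith

theorem STR_summable : Summable (fun k : ℤ => 1 / (1 + (k : ℝ) ^ 2)) := by
  have h1 : Summable (fun k : ℤ => 1 / (k : ℝ) ^ 2) :=
    Real.summable_one_div_int_pow.mpr (by norm_num)
  have h2 : Summable (fun k : ℤ => if k = 0 then (1 : ℝ) else 0) := by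
    apply summable_of_ne_finset_zero (s := {0})
    intro b hb
    rw [Finset.mem_singleton] at hb
    simp [hb]
  refine Summable.of_nonneg_of_le (fun k => by positivity) ?_ (h1.add h2)
  intro k
  rcases eq_or_ne k 0 with rfl | hk
  · simp
  · have hk0 : (0 : ℝ) < (k : ℝ) ^ 2 := by positivity
    simp only [hk, if_false, add_zero]
    apply one_div_le_one_div_of_le hk0
    linarith

theorem STR : STR_stmt := by
  set K : ℝ := ∑' k : ℤ, 1 / (1 + (k : ℝ) ^ 2) with hK
  have hK1 : 1 ≤ K := by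
    have h := STR_summable.le_tsum (0 : ℤ) (fun j _ => by positivity)
    rw [hK]
    simpa using h
  refine ⟨800 * K, by linarith, ?_⟩
  intro X α S hX
  have hX0 : 0 < X := by linarith
  set n : ℤ := round α with hn
  set β : ℝ := α - n with hβ
  have hβ2 : |β| ≤ 1 / 2 := abs_sub_round α
  have hlow := STR_lower X α β n hX hβ
  have hkap0 : 0 ≤ kap (X * β) := by
    unfold kap
    positivity
  calc ∑ m ∈ S, kap (X * ((m : ℝ) + α))
      ≤ ∑ m ∈ S, 10 * kap (X * β) * (1 / (1 + ((m + n : ℤ) : ℝ) ^ 2)) := by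
        apply Finset.sum_le_sum
        intro m _
        have e : (m : ℝ) + α = ((m + n : ℤ) : ℝ) + β := by
          rw [hβ]
          push_cast
          ring
        rw [e]
        exact STR_term X β (m + n) hX hβ2
    _ = 10 * kap (X * β) * ∑ m ∈ S, (1 / (1 + ((m + n : ℤ) : ℝ) ^ 2)) := by
        rw [Finset.mul_sum]
    _ ≤ 10 * kap (X * β) * K := by
        apply mul_le_mul_of_nonneg_left _ (by positivity)
        have hinj : Function.Injective (fun m : ℤ => m + n) := add_left_injective n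
        have h1 : ∑ m ∈ S, (1 / (1 + ((m + n : ℤ) : ℝ) ^ 2)) =
            ∑ k ∈ S.map ⟨fun m : ℤ => m + n, hinj⟩, (1 / (1 + (k : ℝ) ^ 2)) := by
          rw [Finset.sum_map]
          rfl
        rw [h1]
        exact STR_summable.sum_le_tsum _ (fun j _ => by positivity)
    _ ≤ 800 * K / X * PK X α := by
        have h1 : 10 * kap (X * β) * K = 800 * K / X * (X / 80 * kap (X * β)) := by
          field_simp
          ring
        rw [h1]
        apply mul_le_mul_of_nonneg_left hlow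
        positivity

end Pool.Agent.ZD
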